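import Pool.Agent.helper47.TK.SpecH
import Pool.Agent.helper39.GJ.SpecS

/-!
# Projects gk and gs: places for curves with common branch points

`PB`: if `D : Blk l` is independent and all blocks have at least two points, there are places with prescribed Kummer
characters (`Places D.dat`): KH12 for the auxiliary data with one curve in every block.
-/

namespace Pool.Agent.TK

open Polynomial Pool.Agent.GJ
open Pool.Agent.FJ (VT Om chiO Jac Tup IsFrobO rf rs)

noncomputable section

/-- weights for one curve in every block -/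
def PB_w (l n : ℕ) (j : Fin (n + 1)) : ℕ := if l ∣ n + 1 ∧ j = 0 then 2 else 1

theorem PB_w_sum (l n : ℕ) (hl : 2 < l) : ¬ l ∣ ∑ j, PB_w l n j := by
  by_cases h : l ∣ n + 1
  · have h1 : ∑ j : Fin (n + 1), PB_w l n j = (n + 1) + 1 := by
      rw [Fin.sum_univ_succ]
      have h2 : PB_w l n 0 = 2 := if_pos ⟨h, rfl⟩
      have h3 : ∀ j : Fin n, PB_w l n j.succ = 1 := fun j => if_neg fun h4 => (Fin.succ_ne_zero j) h4.2
      rw [h2, Finset.sum_congr rfl fun j _ => h3 j]
      simp only [Finset.sum_const, Finset.card_univ, Fintype.card_fin, smul_eq_mul, mul_one]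
      omega
    rw [h1]
    intro h2
    have h3 : l ∣ 1 := (Nat.dvd_add_right h).1 h2
    have h4 := Nat.le_of_dvd one_pos h3
    omega
  · have h1 : ∑ j : Fin (n + 1), PB_w l n j = n + 1 := by
      have h3 : ∀ j : Fin (n + 1), PB_w l n j = 1 := fun j => if_neg fun h4 => h h4.1
      rw [Finset.sum_congr rfl fun j _ => h3 j]
      simp
    rw [h1]
    exact h

/-- the points of a block are different -/
theorem PB_inj {l : ℕ} [Fact l.Prime] (D : Blk l) (h : D.Indep) (b : Fin D.K) :
    Function.Injective (D.α b) := by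
  classical
  have hl : l ≠ 0 := (Fact.out (p := l.Prime)).ne_zero
  have key : ∀ j j', j < j' → D.α b j ≠ D.α b j' := by
    intro j j' hj he
    have h1 := h (fun b' i i' => if b' = b ∧ (i : ℕ) = j ∧ (i' : ℕ) = j' then 1 else 0) 0
      (fun σ _ _ _ => map_zero σ) ?_ b j j' hj
    · rw [if_pos ⟨rfl, rfl, rfl⟩] at h1
      have h2 : l ∣ 1 := by exact_mod_cast h1
      exact (Fact.out (p := l.Prime)).one_lt.ne' (Nat.dvd_one.1 h2)
    · rw [zero_pow hl]
      symm
      refine Finset.prod_eq_zero (Finset.mem_univ b) ?_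
      refine Finset.prod_eq_zero (Finset.mem_univ j) ?_
      refine Finset.prod_eq_zero (Finset.mem_Ioi.2 hj) ?_
      rw [if_pos ⟨rfl, rfl, rfl⟩, he, sub_self, zpow_one]
  intro j j' he
  rcases lt_trichotomy j j' with h1 | h1 | h1
  · exact absurd he (key j j' h1)
  · exact h1
  · exact absurd he.symm (key j' j h1)

/-- one curve in every block -/
def PB_dat {l : ℕ} [Fact l.Prime] (D : Blk l) (hl : 2 < l) (h : D.Indep) : Dat l where
  k := D.K
  n := D.N
  μ := fun b => PB_w l (D.N b)
  a := D.α
  good := fun b =>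
    { inj := PB_inj D h b
      pos := fun j => by unfold PB_w; split_ifs <;> omega
      lt := fun j => by unfold PB_w; split_ifs <;> omega
      inf := PB_w_sum l (D.N b) hl }
  e := fun _ => 0
  r := D.r
  m := D.m
  pos := D.pos

/-- PB: places for curves with common branch points -/
theorem PB (h12 : KH12_stmt) (l : ℕ) [Fact l.Prime] (hl : l ≠ 2) (D : Blk l) (hI : D.Indep)
    (hN : ∀ b, 0 < D.N b) : Places D.dat := by
  have hl2 : 2 < l := lt_of_le_of_ne (Fact.out (p := l.Prime)).two_le (Ne.symm hl)
  have hP : Places (PB_dat D hl2 hI) := h12 l (PB_dat D hl2 hI) hl (fun e x hx hp => hI e x hx hp) hN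
  intro s hs D0 hD0
  obtain ⟨p, α, hp, O, hO, χ, σ, A, u, h1, h2, h3, h4, h5⟩ := hP s hs D0 hD0
  refine ⟨p, α, hp, O, hO, χ, σ, fun i => A (D.blk i), u, ?_, h2, h3, h4, ?_⟩
  · exact
      { two := h1.two
        eq := h1.eq
        pos := h1.pos
        ord := h1.ord
        tei := h1.tei
        frob := h1.frob
        fix := fun i j => h1.fix (D.blk i) j
        zeta := h1.zeta
        int := fun i j => h1.int (D.blk i) j
        inj := fun i => h1.inj (D.blk i) }
  · intro i j j' hj β hβ
    exact h5 (D.blk i) j j' hj β hβ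

end

end Pool.Agent.TK
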